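import Pool.Agent.T44.JI.Wp
import Pool.Agent.TH21.MS.JFun

/-!
# Two points of the upper half-plane with the same invariant are equivalent
-/

set_option autoImplicit false

open UpperHalfPlane ModularForm EisensteinSeries Filter Topology
open Pool.Agent.TH21.MS (E4 E6 jj E4_eq E6_eq disc_ne)
open scoped MatrixGroups

namespace Pool.Agent.T44.JI

/-- the lattice `μ (ℤ + ℤ z)` -/
noncomputable def lat (μ : ℂ) (hμ : μ ≠ 0) (z : ℍ) : PeriodPair where
  ω₁ := μ
  ω₂ := μ * z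
  indep := by
    rw [LinearIndependent.pair_iff]
    intro s t h
    have h1 : (s : ℂ) + t * z = 0 := by
      have h0 : μ * ((s : ℂ) + t * z) = 0 := by
        rw [← h, Complex.real_smul, Complex.real_smul]
        ring
      exact (mul_eq_zero.1 h0).resolve_left hμ
    have h2 := congrArg Complex.im h1
    have h3 := congrArg Complex.re h1
    simp only [Complex.add_im, Complex.ofReal_im, Complex.mul_im, Complex.ofReal_re, zero_mul, add_zero, zero_add,
      Complex.zero_im] at h2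
    have ht : t = 0 := (mul_eq_zero.1 h2).resolve_right (ne_of_gt z.im_pos)
    rw [ht] at h3
    simp at h3
    exact ⟨h3, ht⟩

lemma E_eq {k : ℕ} (hk : 3 ≤ k) (z : ℍ) : ∑' v : Fin 2 → ℤ, eisSummand k v z = 2 * riemannZeta k * E hk z := by
  rw [tsum_eisSummand_eq_riemannZeta_mul_eisensteinSeries hk z,
    show E hk z = (1 / 2 : ℂ) • eisensteinSeriesSIF (N := 1) 0 k z from rfl, eisensteinSeriesSIF_apply 0 k z, smul_eq_mul]
  ring

lemma G_lat {k : ℕ} (hk : 3 ≤ k) (μ : ℂ) (hμ : μ ≠ 0) (z : ℍ) :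
    (lat μ hμ z).G k = (μ ^ k)⁻¹ * (2 * riemannZeta k * E hk z) := by
  rw [← E_eq hk z, PeriodPair.G, ← (lat μ hμ z).latticeEquivProd.symm.toEquiv.tsum_eq, ← (Equiv.prodComm ℤ ℤ).tsum_eq,
    ← (finTwoArrowEquiv ℤ).symm.tsum_eq, ← tsum_mul_left]
  refine tsum_congr fun x => ?_
  have h1 : (((lat μ hμ z).latticeEquivProd.symm.toEquiv ((Equiv.prodComm ℤ ℤ) x) : (lat μ hμ z).lattice) : ℂ) =
      (x.2 : ℂ) * μ + (x.1 : ℂ) * (μ * z) := (lat μ hμ z).latticeEquiv_symm_apply (x.2, x.1)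
  rw [h1, finTwoArrowEquiv_symm_apply]
  unfold eisSummand
  simp only [Matrix.cons_val_zero, Matrix.cons_val_one]
  rw [zpow_neg, zpow_natCast, ← mul_inv, ← mul_pow]
  congr 2
  ring

/-- the scaling between two pairs of invariants -/
lemma exists_scale {p q p' q' : ℂ} (hd : p ^ 3 - q ^ 2 ≠ 0) (hd' : p' ^ 3 - q' ^ 2 ≠ 0) (h : p ^ 3 * q' ^ 2 = p' ^ 3 * q ^ 2) :
    ∃ l : ℂ, l ≠ 0 ∧ p' = l ^ 4 * p ∧ q' = l ^ 6 * q := by
  by_cases hp : p = 0
  · have hq : q ≠ 0 := by
      rintro rfl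
      exact hd (by rw [hp]; ring)
    have hp' : p' = 0 := by
      rw [hp] at h
      have h1 : p' ^ 3 * q ^ 2 = 0 := by rw [← h]; ring
      exact pow_eq_zero_iff (by norm_num) |>.1 ((mul_eq_zero.1 h1).resolve_right (pow_ne_zero _ hq))
    have hq' : q' ≠ 0 := by
      rintro rfl
      exact hd' (by rw [hp']; ring)
    obtain ⟨l, hl⟩ := IsAlgClosed.exists_pow_nat_eq (q' / q) (n := 6) (by norm_num)
    refine ⟨l, ?_, by rw [hp, hp', mul_zero], by rw [hl, div_mul_cancel₀ _ hq]⟩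
    rintro rfl
    rw [zero_pow (by norm_num)] at hl
    exact div_ne_zero hq' hq hl.symm
  · by_cases hq : q = 0
    · have hq' : q' = 0 := by
        rw [hq] at h
        have h1 : p ^ 3 * q' ^ 2 = 0 := by rw [h]; ring
        exact pow_eq_zero_iff (by norm_num) |>.1 ((mul_eq_zero.1 h1).resolve_left (pow_ne_zero _ hp))
      have hp' : p' ≠ 0 := by
        rintro rfl
        exact hd' (by rw [hq']; ring)
      obtain ⟨l, hl⟩ := IsAlgClosed.exists_pow_nat_eq (p' / p) (n := 4) (by norm_num)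
      refine ⟨l, ?_, by rw [hl, div_mul_cancel₀ _ hp], by rw [hq, hq', mul_zero]⟩
      rintro rfl
      rw [zero_pow (by norm_num)] at hl
      exact div_ne_zero hp' hp hl.symm
    · have hp' : p' ≠ 0 := by
        rintro rfl
        have h1 : p ^ 3 * q' ^ 2 = 0 := by rw [h]; ring
        have h2 := pow_eq_zero_iff (by norm_num) |>.1 ((mul_eq_zero.1 h1).resolve_left (pow_ne_zero _ hp))
        exact hd' (by rw [h2]; ring)
      have hq' : q' ≠ 0 := by
        rintro rfl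
        have h1 : p' ^ 3 * q ^ 2 = 0 := by rw [← h]; ring
        exact mul_ne_zero (pow_ne_zero 3 hp') (pow_ne_zero 2 hq) h1
      obtain ⟨l, hl⟩ := IsAlgClosed.exists_pow_nat_eq (q' / q * (p / p')) (n := 2) (by norm_num)
      have hl4 : l ^ 4 = (q' / q * (p / p')) ^ 2 := by rw [← hl]; ring
      have hl6 : l ^ 6 = (q' / q * (p / p')) ^ 3 := by rw [← hl]; ring
      refine ⟨l, ?_, ?_, ?_⟩
      · rintro rfl
        rw [zero_pow (by norm_num)] at hl
        exact mul_ne_zero (div_ne_zero hq' hq) (div_ne_zero hp hp') hl.symm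
      · rw [hl4]
        field_simp
        linear_combination -h
      · rw [hl6]
        field_simp
        linear_combination -h

lemma lat_mem {μ : ℂ} {hμ : μ ≠ 0} {z : ℍ} {x : ℂ} : x ∈ (lat μ hμ z).lattice ↔ ∃ m n : ℤ, m * μ + n * (μ * z) = x :=
  PeriodPair.mem_lattice

lemma pair_eq {w : ℍ} {m n : ℤ} (h : (m : ℂ) * w + n = 0) : m = 0 ∧ n = 0 := by
  have h2 := congrArg Complex.im h
  simp only [Complex.add_im, Complex.mul_im, Complex.intCast_im, Complex.intCast_re, zero_mul, add_zero, Complex.zero_im] at h2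
  have hm : (m : ℝ) = 0 := (mul_eq_zero.1 h2).resolve_right (ne_of_gt w.im_pos)
  have hm' : m = 0 := by exact_mod_cast hm
  rw [hm'] at h
  simp at h
  exact ⟨hm', h⟩

/-- **The invariant separates the orbits.** -/
theorem j_inj (z w : ℍ) (h : jj z = jj w) : ∃ γ : SL(2, ℤ), z = γ • w := by
  have hz := disc_ne z
  have hw := disc_ne w
  have h1 : E4 z ^ 3 * E6 w ^ 2 = E4 w ^ 3 * E6 z ^ 2 := by
    unfold jj at h
    rw [div_eq_div_iff hz hw] at h
    linear_combination (1 / 1728 : ℂ) * (-h)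
  obtain ⟨l, hl, h4, h6⟩ := exists_scale hz hw h1
  have hμ : l⁻¹ ≠ 0 := inv_ne_zero hl
  have e4 : (lat l⁻¹ hμ z).G 4 = (lat 1 one_ne_zero w).G 4 := by
    rw [G_lat (by norm_num), G_lat (by norm_num)]
    have a1 : (E (by norm_num : 3 ≤ 4) z : ℂ) = E4 z := (E4_eq z).symm
    have a2 : (E (by norm_num : 3 ≤ 4) w : ℂ) = E4 w := (E4_eq w).symm
    rw [a1, a2, h4]
    field_simp
  have e6 : (lat l⁻¹ hμ z).G 6 = (lat 1 one_ne_zero w).G 6 := by
    rw [G_lat (by norm_num), G_lat (by norm_num)]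
    have a1 : (E (by norm_num : 3 ≤ 6) z : ℂ) = E6 z := (E6_eq z).symm
    have a2 : (E (by norm_num : 3 ≤ 6) w : ℂ) = E6 w := (E6_eq w).symm
    rw [a1, a2, h6]
    field_simp
  have hL := lattice_eq e4 e6
  set μ : ℂ := l⁻¹ with hμd
  -- the matrices
  have m1 : μ ∈ (lat 1 one_ne_zero w).lattice := by
    rw [← hL]
    exact (lat μ hμ z).ω₁_mem_lattice
  have m2 : μ * z ∈ (lat 1 one_ne_zero w).lattice := by
    rw [← hL]
    exact (lat μ hμ z).ω₂_mem_lattice
  have m3 : (1 : ℂ) ∈ (lat μ hμ z).lattice := by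
    rw [hL]
    exact (lat 1 one_ne_zero w).ω₁_mem_lattice
  have m4 : 1 * (w : ℂ) ∈ (lat μ hμ z).lattice := by
    rw [hL]
    exact (lat 1 one_ne_zero w).ω₂_mem_lattice
  rw [lat_mem] at m1 m2 m3 m4
  obtain ⟨d, c, hcd⟩ := m1
  obtain ⟨b, a, hab⟩ := m2
  obtain ⟨p, q, hpq⟩ := m3
  obtain ⟨r, s, hrs⟩ := m4
  simp only [one_mul, mul_one] at hcd hab hrs
  have k1 : ((p * c + q * a : ℤ) : ℂ) * w + ((p * d + q * b - 1 : ℤ) : ℂ) = 0 := by
    push_cast
    linear_combination (-(1 : ℂ)) * ((p : ℂ) * (-hcd) + (q : ℂ) * (-hab)) + (-(1 : ℂ)) * (-hpq)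
  have k2 : ((r * c + s * a - 1 : ℤ) : ℂ) * w + ((r * d + s * b : ℤ) : ℂ) = 0 := by
    push_cast
    linear_combination (-(1 : ℂ)) * ((r : ℂ) * (-hcd) + (s : ℂ) * (-hab)) + (-(1 : ℂ)) * (-hrs)
  obtain ⟨k3, k4⟩ := pair_eq k1
  obtain ⟨k5, k6⟩ := pair_eq k2
  have hdet : (a * d - b * c) * (s * p - r * q) = 1 := by
    linear_combination (a * s + c * r - 1 + 1) * k4 + k5 - (b * s + d * r) * k3
  -- the imaginary part
  have hzw : (z : ℂ) * ((c : ℂ) * w + d) = (a : ℂ) * w + b := by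
    have : μ * ((z : ℂ) * ((c : ℂ) * w + d)) = μ * ((a : ℂ) * w + b) := by
      linear_combination (μ * (z : ℂ)) * hcd - μ * hab
    exact mul_left_cancel₀ hμ this
  have hne : (c : ℂ) * w + d ≠ 0 := by
    intro h0
    have : μ = 0 := by rw [← hcd]; linear_combination h0
    exact hμ this
  have hns : 0 < Complex.normSq ((c : ℂ) * w + d) := Complex.normSq_pos.2 hne
  have him : (z : ℂ).im * Complex.normSq ((c : ℂ) * w + d) = ((a * d - b * c : ℤ) : ℝ) * (w : ℂ).im := by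
    have e1 : (z : ℂ) * ((Complex.normSq ((c : ℂ) * w + d) : ℝ) : ℂ) = ((a : ℂ) * w + b) * (starRingEnd ℂ) ((c : ℂ) * w + d) := by
      rw [← Complex.mul_conj, ← mul_assoc, hzw]
    have e2 := congrArg Complex.im e1
    rw [Complex.im_mul_ofReal] at e2
    rw [e2]
    simp only [map_add, map_mul, map_intCast, Complex.mul_im, Complex.add_re, Complex.add_im, Complex.mul_re, Complex.intCast_re,
      Complex.intCast_im, Complex.conj_re, Complex.conj_im]
    push_cast
    ring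
  have hpos : 0 < a * d - b * c := by
    have h1 : 0 < ((a * d - b * c : ℤ) : ℝ) * (w : ℂ).im := by
      rw [← him]
      exact mul_pos z.im_pos hns
    have h2 : 0 < ((a * d - b * c : ℤ) : ℝ) := (pos_iff_pos_of_mul_pos h1).2 w.im_pos
    exact_mod_cast h2
  have hone : a * d - b * c = 1 := by
    rcases Int.eq_one_or_neg_one_of_mul_eq_one hdet with h1 | h1
    · exact h1
    · omega
  obtain ⟨γ, hγ⟩ : ∃ γ : SL(2, ℤ), (γ : Matrix (Fin 2) (Fin 2) ℤ) = !![a, b; c, d] :=
    ⟨⟨!![a, b; c, d], by rw [Matrix.det_fin_two_of]; exact hone⟩, rfl⟩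
  refine ⟨γ, UpperHalfPlane.ext ?_⟩
  have g00 : γ 0 0 = a := by
    have := congrFun (congrFun hγ 0) 0
    simpa using this
  have g01 : γ 0 1 = b := by
    have := congrFun (congrFun hγ 0) 1
    simpa using this
  have g10 : γ 1 0 = c := by
    have := congrFun (congrFun hγ 1) 0
    simpa using this
  have g11 : γ 1 1 = d := by
    have := congrFun (congrFun hγ 1) 1
    simpa using this
  rw [UpperHalfPlane.coe_specialLinearGroup_apply, g00, g01, g10, g11]
  simp only [algebraMap_int_eq, eq_intCast, Complex.ofReal_intCast]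
  rw [eq_div_iff hne]
  exact hzw

end Pool.Agent.T44.JI
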