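import Mathlib

/-!
# A lattice is determined by its invariants `G_4` and `G_6`
-/

set_option autoImplicit false

open PeriodPair Filter Topology

namespace Pool.Agent.T44.JI

lemma P_eq (L : PeriodPair) (z : ℂ) : ℘[L] z = 1 / z ^ 2 + ℘[L - (0 : ℂ)] z := by
  have h := L.weierstrassPExcept_add 0 z
  simp only [ZeroMemClass.coe_zero, sub_zero] at h
  rw [← h]
  simp
  ring

lemma P'_eq (L : PeriodPair) (z : ℂ) : ℘'[L] z = -2 / z ^ 3 + ℘'[L - (0 : ℂ)] z := by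
  have h := L.derivWeierstrassPExcept_def 0 z
  simp only [ZeroMemClass.coe_zero, sub_zero] at h
  rw [h]
  ring

lemma ev_notMem (L : PeriodPair) (x : ℂ) : ∀ᶠ z in 𝓝[≠] x, z ∉ L.lattice := by
  have h1 : ∀ᶠ z in 𝓝[≠] x, z ∈ ((L.lattice : Set ℂ) \ {x})ᶜ :=
    nhdsWithin_le_nhds (L.compl_lattice_sdiff_singleton_mem_nhds x)
  filter_upwards [h1, self_mem_nhdsWithin] with z hz hz' hzL
  exact hz ⟨hzL, hz'⟩

lemma near_zero {L M : PeriodPair} (h4 : L.G 4 = M.G 4) (h6 : L.G 6 = M.G 6) :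
    ∀ᶠ z in 𝓝 (0 : ℂ), ℘[L - (0 : ℂ)] z - ℘[M - (0 : ℂ)] z = 0 := by
  have hp : AnalyticAt ℂ (℘[L - (0 : ℂ)]) 0 := L.analyticAt_weierstrassPExcept 0
  have hq : AnalyticAt ℂ (℘[M - (0 : ℂ)]) 0 := M.analyticAt_weierstrassPExcept 0
  have hp' : AnalyticAt ℂ (℘'[L - (0 : ℂ)]) 0 := L.analyticAt_derivWeierstrassPExcept 0
  have hq' : AnalyticAt ℂ (℘'[M - (0 : ℂ)]) 0 := M.analyticAt_derivWeierstrassPExcept 0
  set d : ℂ → ℂ := fun z => ℘[L - (0 : ℂ)] z - ℘[M - (0 : ℂ)] z with hd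
  have hda : AnalyticAt ℂ d 0 := hp.sub hq
  by_contra hne
  obtain ⟨n, g, hg, hg0, hdg⟩ := (hda.exists_eventuallyEq_pow_smul_nonzero_iff).2 hne
  -- the derivative of `d`
  have hder : ∀ᶠ z in 𝓝 (0 : ℂ), deriv d z = ℘'[L - (0 : ℂ)] z - ℘'[M - (0 : ℂ)] z := by
    have e1 : ∀ᶠ z in 𝓝 (0 : ℂ), z ∈ ((L.lattice : Set ℂ) \ {0})ᶜ := L.compl_lattice_sdiff_singleton_mem_nhds 0
    have e2 : ∀ᶠ z in 𝓝 (0 : ℂ), z ∈ ((M.lattice : Set ℂ) \ {0})ᶜ := M.compl_lattice_sdiff_singleton_mem_nhds 0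
    filter_upwards [e1, e2] with z h1 h2
    have k1 : DifferentiableAt ℂ (℘[L - (0 : ℂ)]) z := (L.analyticOnNhd_weierstrassPExcept 0 z h1).differentiableAt
    have k2 : DifferentiableAt ℂ (℘[M - (0 : ℂ)]) z := (M.analyticOnNhd_weierstrassPExcept 0 z h2).differentiableAt
    have k3 : deriv d z = deriv (℘[L - (0 : ℂ)]) z - deriv (℘[M - (0 : ℂ)]) z := deriv_sub k1 k2
    rw [k3, L.eqOn_deriv_weierstrassPExcept_derivWeierstrassPExcept 0 h1,
      M.eqOn_deriv_weierstrassPExcept_derivWeierstrassPExcept 0 h2]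
  have hder2 : ∀ᶠ z in 𝓝 (0 : ℂ), z * deriv d z = z ^ n * (n * g z + z * deriv g z) := by
    have e1 : ∀ᶠ z in 𝓝 (0 : ℂ), d =ᶠ[𝓝 z] fun z => z ^ n * g z := by
      have := hdg.eventually_nhds
      filter_upwards [this] with z hz
      filter_upwards [hz] with w hw
      rw [hw, sub_zero, smul_eq_mul]
    have e2 : ∀ᶠ z in 𝓝 (0 : ℂ), AnalyticAt ℂ g z := hg.eventually_analyticAt
    filter_upwards [e1, e2] with z h1 h2
    rw [h1.deriv_eq]
    have h3 : HasDerivAt (fun z => z ^ n * g z) (n * z ^ (n - 1) * g z + z ^ n * deriv g z) z :=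
      (hasDerivAt_pow n z).mul h2.differentiableAt.hasDerivAt
    rw [h3.deriv]
    rcases n with _ | n
    · simp
    · rw [Nat.add_sub_cancel]
      push_cast
      ring
  -- the relation
  have hrel : ∀ᶠ z in 𝓝[≠] (0 : ℂ), (n * g z + z * deriv g z) * (-4 + z ^ 3 * (℘'[L - (0 : ℂ)] z + ℘'[M - (0 : ℂ)] z)) =
      g z * (4 * ((1 + z ^ 2 * ℘[L - (0 : ℂ)] z) ^ 2 + (1 + z ^ 2 * ℘[L - (0 : ℂ)] z) * (1 + z ^ 2 * ℘[M - (0 : ℂ)] z) +
        (1 + z ^ 2 * ℘[M - (0 : ℂ)] z) ^ 2) - L.g₂ * z ^ 4) := by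
    filter_upwards [ev_notMem L 0, ev_notMem M 0, nhdsWithin_le_nhds hder, nhdsWithin_le_nhds hder2, nhdsWithin_le_nhds hdg,
      self_mem_nhdsWithin] with z h1 h2 h3 h4' h5 h6'
    have hz : z ≠ 0 := h6'
    have r1 := L.derivWeierstrassP_sq z h1
    have r2 := M.derivWeierstrassP_sq z h2
    have g2 : L.g₂ = M.g₂ := by unfold PeriodPair.g₂; rw [h4]
    have g3 : L.g₃ = M.g₃ := by unfold PeriodPair.g₃; rw [h6]
    rw [← g2, ← g3] at r2
    rw [P_eq, P'_eq] at r1 r2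
    rw [sub_zero, smul_eq_mul] at h5
    rw [h3] at h4'
    set p := ℘[L - (0 : ℂ)] z
    set q := ℘[M - (0 : ℂ)] z
    set p' := ℘'[L - (0 : ℂ)] z
    set q' := ℘'[M - (0 : ℂ)] z
    have h5' : p - q = z ^ n * g z := h5
    have hzn : z ^ n ≠ 0 := pow_ne_zero _ hz
    apply mul_left_cancel₀ hzn
    have e1 : z ^ n * ((n * g z + z * deriv g z) * (-4 + z ^ 3 * (p' + q'))) = z * (p' - q') * (-4 + z ^ 3 * (p' + q')) := by
      rw [h4']
      ring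
    have e2 : z ^ n * (g z * (4 * ((1 + z ^ 2 * p) ^ 2 + (1 + z ^ 2 * p) * (1 + z ^ 2 * q) + (1 + z ^ 2 * q) ^ 2) - L.g₂ * z ^ 4)) =
        (p - q) * (4 * ((1 + z ^ 2 * p) ^ 2 + (1 + z ^ 2 * p) * (1 + z ^ 2 * q) + (1 + z ^ 2 * q) ^ 2) - L.g₂ * z ^ 4) := by
      rw [h5']
      ring
    rw [e1, e2]
    field_simp at r1 r2
    apply mul_left_cancel₀ (pow_ne_zero 2 hz)
    linear_combination r1 - r2
  -- the limit
  have hgd : ContinuousAt (deriv g) 0 := hg.deriv.continuousAt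
  have c1 : ContinuousAt (fun z : ℂ => (n * g z + z * deriv g z) * (-4 + z ^ 3 * (℘'[L - (0 : ℂ)] z + ℘'[M - (0 : ℂ)] z))) 0 := by
    have := hg.continuousAt
    have := hp'.continuousAt
    have := hq'.continuousAt
    fun_prop
  have c2 : ContinuousAt (fun z : ℂ => g z * (4 * ((1 + z ^ 2 * ℘[L - (0 : ℂ)] z) ^ 2 +
      (1 + z ^ 2 * ℘[L - (0 : ℂ)] z) * (1 + z ^ 2 * ℘[M - (0 : ℂ)] z) +
        (1 + z ^ 2 * ℘[M - (0 : ℂ)] z) ^ 2) - L.g₂ * z ^ 4)) 0 := by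
    have := hg.continuousAt
    have := hp.continuousAt
    have := hq.continuousAt
    fun_prop
  have l1 := c1.tendsto.mono_left (nhdsWithin_le_nhds (s := {(0 : ℂ)}ᶜ))
  have l2 := c2.tendsto.mono_left (nhdsWithin_le_nhds (s := {(0 : ℂ)}ᶜ))
  have l3 := tendsto_nhds_unique (l1.congr' hrel) l2
  simp only [zero_mul, add_zero, ne_eq, OfNat.ofNat_ne_zero, not_false_eq_true, zero_pow, mul_zero, one_pow, mul_one, sub_zero] at l3
  have l4 : (n : ℂ) * g 0 * -4 = g 0 * 12 := by rw [l3]; ring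
  have l5 : ((n : ℂ) + 3) * g 0 = 0 := by linear_combination (-1 / 4 : ℂ) * l4
  have l6 := (mul_eq_zero.1 l5).resolve_right hg0
  have l7 : ((n + 3 : ℕ) : ℂ) = 0 := by push_cast; exact l6
  have l8 : n + 3 = 0 := by exact_mod_cast l7
  omega

lemma countable_lattice (L : PeriodPair) : (L.lattice : Set ℂ).Countable := by
  have : Countable L.lattice := L.latticeEquivProd.toEquiv.injective.countable
  exact Set.to_countable _

lemma P_eqOn {L M : PeriodPair} (h4 : L.G 4 = M.G 4) (h6 : L.G 6 = M.G 6) :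
    Set.EqOn (℘[L]) (℘[M]) (((L.lattice : Set ℂ) ∪ M.lattice)ᶜ) := by
  have hconn : IsPreconnected (((L.lattice : Set ℂ) ∪ M.lattice)ᶜ) :=
    (((countable_lattice L).union (countable_lattice M)).isConnected_compl_of_one_lt_rank (by
      rw [Complex.rank_real_complex]
      exact Cardinal.one_lt_two)).isPreconnected
  have h0 : ∀ᶠ z in 𝓝 (0 : ℂ), ℘[L] z = ℘[M] z := by
    filter_upwards [near_zero h4 h6] with z hz
    rw [P_eq, P_eq, sub_eq_zero.1 hz]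
  have h1 : ∀ᶠ z in 𝓝[≠] (0 : ℂ), ∀ᶠ w in 𝓝 z, ℘[L] w = ℘[M] w := nhdsWithin_le_nhds (eventually_eventually_nhds.2 h0)
  obtain ⟨z₁, ⟨hz1, hz2⟩, hz3⟩ := ((h1.and (ev_notMem L 0)).and (ev_notMem M 0)).exists
  have a1 : AnalyticOnNhd ℂ (℘[L]) (((L.lattice : Set ℂ) ∪ M.lattice)ᶜ) := fun z hz =>
    L.analyticOnNhd_weierstrassP z fun h => hz (Or.inl h)
  have a2 : AnalyticOnNhd ℂ (℘[M]) (((L.lattice : Set ℂ) ∪ M.lattice)ᶜ) := fun z hz =>
    M.analyticOnNhd_weierstrassP z fun h => hz (Or.inr h)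
  refine a1.eqOn_of_preconnected_of_eventuallyEq a2 hconn (z₀ := z₁) ?_ hz1
  rintro (h | h)
  · exact hz2 h
  · exact hz3 h

lemma lattice_le {L M : PeriodPair} (h4 : L.G 4 = M.G 4) (h6 : L.G 6 = M.G 6) : L.lattice ≤ M.lattice := by
  intro l hl
  by_contra hlM
  have h1 : (℘[L]) =ᶠ[𝓝[≠] l] (℘[M]) := by
    filter_upwards [ev_notMem L l, ev_notMem M l] with z h2 h3
    refine P_eqOn h4 h6 ?_
    rintro (h | h)
    · exact h2 h
    · exact h3 h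
  have h2 := meromorphicOrderAt_congr h1
  rw [L.order_weierstrassP l hl] at h2
  have h3 := (M.analyticOnNhd_weierstrassP l hlM).meromorphicOrderAt_nonneg
  rw [← h2] at h3
  exact absurd h3 (by decide)

/-- **A lattice is determined by `G_4` and `G_6`.** -/
theorem lattice_eq {L M : PeriodPair} (h4 : L.G 4 = M.G 4) (h6 : L.G 6 = M.G 6) : L.lattice = M.lattice :=
  le_antisymm (lattice_le h4 h6) (lattice_le h4.symm h6.symm)

end Pool.Agent.T44.JI
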